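import Pool.Agent.H61.Dimer

open MeasureTheory Pool.Agent.H61.Dimer in
theorem Pool.Agent.Results.MP_5cb0a4_pr.NoInfinitePath.result :
    ∃ ν : Measure Conf, ErgodicGibbs ν ∧ (∀ i, current ν i = 1 / 3) ∧
      ∃ E : Set (Conf × Conf), MeasurableSet E ∧ 0 < ν.prod ν E ∧
        ∀ p ∈ E, ∀ x : V, {y | (union p.1 p.2).Reachable x y}.Finite :=
  main
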